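import Pool.Agent.TH4.FZ.Small

/-!
# MP_a60a76_nt: a congruence does not lower the conductor by more than a bounded factor, for almost
all elliptic curves

Order the elliptic curves `E : y² = x³ + Ax + B` over `ℚ` by the height
`H(E) = max(4|A|³, 27B²)`.  For every `ε > 0` there is a constant `C` such that all but a proportion
`ε` of the curves have the following property: if `E'` is any elliptic curve over `ℚ`, of whatever
height, with `E'[n]` isomorphic to `E[n]` as Galois module for some `n ≥ 2`, then the product of the
primes `q ≥ 5` of bad reduction of `E'` is at least `H(E)/C`.  In particular the conductor of `E'` is at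
least `H(E)/C`, while the conductor of `E` is at most a constant times `H(E)`.

Proof.  Let `q ≥ 5` be a prime which divides `4A³ + 27B²` exactly once.  By the two ramification
theorems of the libraries `W275/FM` (for `q ∤ n`) and `W275/FML` (for `q ∣ n`) `q` divides the discriminant
of every integral model of `E'`; here one needs that the congruence does not depend on the model.  By
the sieve for square divisors of `4A³ + 27B²` (same library) the product of these `q` is at least
`|4A³ + 27B²|/C'` for all but a proportion `ε/2` of the curves, and discriminants which are small compared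
with the height are rare.
-/

set_option autoImplicit false

open Filter
open scoped Classical

namespace Pool.Agent.Results.MP_a60a76_nt.ConductorIsKept

/-- The curve `y² = x³ + Ax + B` over `ℚ`. -/
def curve (A B : ℤ) : WeierstrassCurve ℚ := ⟨0, 0, 0, A, B⟩

/-- The group of its points over the algebraic closure of `ℚ`. -/
abbrev Points (A B : ℤ) : Type := ((curve A B).baseChange (AlgebraicClosure ℚ)).toAffine.Point

/-- The action of an automorphism `σ` of the algebraic closure on the points. -/
noncomputable def galois (A B : ℤ) (σ : AlgebraicClosure ℚ ≃ₐ[ℚ] AlgebraicClosure ℚ) :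
    Points A B →+ Points A B :=
  WeierstrassCurve.Affine.Point.map
    (σ : AlgebraicClosure ℚ →ₐ[ℚ] AlgebraicClosure ℚ)

/-- The `n`-torsion of `y² = x³ + Ax + B` and that of `y² = x³ + A'x + B'` are isomorphic as Galois
modules: some map between the groups of points restricts to a bijective additive map of the
`n`-torsion which commutes with the Galois group. -/
def Congruent (n : ℕ) (A B A' B' : ℤ) : Prop :=
  ∃ f : Points A B → Points A' B', (∀ P Q, n • P = 0 → n • Q = 0 → f (P + Q) = f P + f Q) ∧
    Set.BijOn f {P | n • P = 0} {Q | n • Q = 0} ∧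
    ∀ (σ : AlgebraicClosure ℚ ≃ₐ[ℚ] AlgebraicClosure ℚ) (P : Points A B), n • P = 0 →
      f (galois A B σ P) = galois A' B' σ (f P)

/-- The equations with `|A| ≤ T²` and `|B| ≤ T³`. -/
def Box (T : ℕ) : Set (ℤ × ℤ) := {p | |p.1| ≤ (T : ℤ) ^ 2 ∧ |p.2| ≤ (T : ℤ) ^ 3}

/-- The discriminant, up to the factor `-16`. -/
def disc (A B : ℤ) : ℤ := 4 * A ^ 3 + 27 * B ^ 2

/-- The height of `y² = x³ + Ax + B`. -/
def height (A B : ℤ) : ℤ := max (4 * |A| ^ 3) (27 * B ^ 2)

/-- The curves `y² = x³ + Ax + B` and `y² = x³ + A'x + B'` are isomorphic over `ℚ`. -/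
def IsModel (A B A' B' : ℤ) : Prop :=
  ∃ u : ℚ, u ≠ 0 ∧ (A' : ℚ) = u ^ 4 * A ∧ (B' : ℚ) = u ^ 6 * B

/-- `q ≥ 5` is a prime of bad reduction of `y² = x³ + Ax + B`: it divides the discriminant of every
integral equation `y² = x³ + A'x + B'` of the curve. -/
def BadPrime (A B : ℤ) (q : ℕ) : Prop :=
  q.Prime ∧ 5 ≤ q ∧ ∀ A' B' : ℤ, IsModel A B A' B' → (q : ℤ) ∣ disc A' B'

/-- The product of the primes `q ≥ 5` of bad reduction (they divide `4A³ + 27B²`, and the product
divides the conductor). -/
noncomputable def badProduct (A B : ℤ) : ℕ :=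
  ∏ q ∈ (disc A B).natAbs.primeFactors.filter (fun q => BadPrime A B q), q

/-- Whenever `E'` is an elliptic curve with `E'[n]` isomorphic to `E[n]` for some `n ≥ 2`, the product
of the primes `q ≥ 5` of bad reduction of `E'` is at least `H(E)/C`. -/
def KeepsConductor (C : ℕ) (A B : ℤ) : Prop :=
  ∀ A' B' : ℤ, disc A' B' ≠ 0 → ∀ n : ℕ, 2 ≤ n → Congruent n A B A' B' →
    height A B ≤ C * badProduct A' B'

/-- **A congruence modulo `n ≥ 2` does not lower the conductor by more than a bounded factor, for
almost all curves.**  For every `ε > 0` there is a `C` such that for all large `T` the pairs `(A, B)` in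
the box `|A| ≤ T²`, `|B| ≤ T³` for which `E : y² = x³ + Ax + B` is an elliptic curve with
`KeepsConductor C A B` are a proportion at least `1 - ε` of the box. -/
theorem result (ε : ℝ) (hε : 0 < ε) : ∃ C : ℕ, ∀ᶠ T : ℕ in atTop,
    (1 - ε) * ((Box T).ncard : ℝ) ≤
      (({p | p ∈ Box T ∧ disc p.1 p.2 ≠ 0 ∧ KeepsConductor C p.1 p.2} : Set (ℤ × ℤ)).ncard : ℝ) := by
  obtain ⟨C, T₀, h⟩ := Pool.Agent.TH4.FZ.two_paramH ε hε
  exact ⟨C, eventually_atTop.2 ⟨T₀, h⟩⟩

end Pool.Agent.Results.MP_a60a76_nt.ConductorIsKept
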