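import Pool.Agent.TH894.NI5

/-!
# One-parameter families at integers with few changed digits: no congruences modulo any `n ≥ 2` with curves with good reduction at
the large primes

Let `E_t : y² = x³ + A(t)x + B(t)` be a one-parameter family over `ℚ` with an `I₁` fibre: `4A³ + 27B²` has an irreducible factor
of multiplicity one.  Take any integer `N` with `K` digits in base `b`, prescribe for every position a new digit, choose `r`
positions and put the new digits there, which gives the number `t`.  For all but a proportion `ε` of the choices `E_t` is an elliptic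
curve and there is a prime `q > exp (c r)` such that every elliptic curve `E'` over `ℚ`, for which `E'[n]` is isomorphic to
`E_t[n]` as Galois module for some `n ≥ 2`, has bad reduction at `q`.

Proof.  By the two ramification theorems of the libraries `W275/FM` and `W275/FML` (in the form of `TH4/FZ/Lev`), every curve
congruent to `E_t` has bad reduction at the primes `q ≥ 5` which divide `4A(t)³ + 27B(t)²` exactly once.  For large `q` these include
the primes which divide `P(t)` exactly once, `P` the irreducible factor.  By Mertens' theorem for the roots of `P`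
(`Pool.Agent.H474R2.GE.mertens_rho`) the densities of these events modulo `q²` for the primes `y < q ≤ y ^ m` have a large sum.
The second moment over the choices is computed by Fourier expansion modulo `∏ q²`, where the exponential sums over the choices at
the nonzero frequencies with denominators at most `y ^ (4 m)` are at most `exp (- c' r)`, if at most `y ^ (1 / 2)` of the primes are
excluded.
-/

set_option autoImplicit false

namespace Pool.Agent.Results.MP_a60a76_nt.FewDigitParameters

open Finset Polynomial
open scoped Classical

/-- The curve `y² = x³ + Ax + B` over `ℚ`. -/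
def curve (A B : ℤ) : WeierstrassCurve ℚ := ⟨0, 0, 0, A, B⟩

/-- The group of its points over the algebraic closure of `ℚ`. -/
abbrev Points (A B : ℤ) : Type := ((curve A B).baseChange (AlgebraicClosure ℚ)).toAffine.Point

/-- The action of an automorphism `σ` of the algebraic closure on the points. -/
noncomputable def galois (A B : ℤ) (σ : AlgebraicClosure ℚ ≃ₐ[ℚ] AlgebraicClosure ℚ) :
    Points A B →+ Points A B :=
  WeierstrassCurve.Affine.Point.map
    (σ : AlgebraicClosure ℚ →ₐ[ℚ] AlgebraicClosure ℚ)

/-- The `n`-torsion of `y² = x³ + Ax + B` and that of `y² = x³ + A'x + B'` are isomorphic as Galois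
modules: some map between the groups of points restricts to a bijective additive map of the
`n`-torsion which commutes with the Galois group. -/
def Congruent (n : ℕ) (A B A' B' : ℤ) : Prop :=
  ∃ f : Points A B → Points A' B', (∀ P Q, n • P = 0 → n • Q = 0 → f (P + Q) = f P + f Q) ∧
    Set.BijOn f {P | n • P = 0} {Q | n • Q = 0} ∧
    ∀ (σ : AlgebraicClosure ℚ ≃ₐ[ℚ] AlgebraicClosure ℚ) (P : Points A B), n • P = 0 →
      f (galois A B σ P) = galois A' B' σ (f P)

/-- The discriminant, up to the factor `-16`. -/
def disc (A B : ℤ) : ℤ := 4 * A ^ 3 + 27 * B ^ 2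

/-- `y² = x³ + A'x + B'` is isomorphic to `y² = x³ + Ax + B` over `ℚ`. -/
def SameCurve (A B A' B' : ℤ) : Prop := ∃ u : ℚ, u ≠ 0 ∧ (A' : ℚ) = u ^ 4 * A ∧ (B' : ℚ) = u ^ 6 * B

/-- The prime `q ≥ 5` divides the discriminants of all integral equations `y² = x³ + A'x + B'` of the curve
`y² = x³ + Ax + B`: the curve has bad reduction at `q`. -/
def BadPrime (A B : ℤ) (q : ℕ) : Prop :=
  q.Prime ∧ 5 ≤ q ∧ ∀ A' B' : ℤ, SameCurve A B A' B' → (q : ℤ) ∣ disc A' B'

/-- `E : y² = x³ + Ax + B` is an elliptic curve and there is `q > y` such that every elliptic curve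
`E' : y² = x³ + A'x + B'`, which is congruent to `E` modulo some `n ≥ 2`, has bad reduction at the prime `q`. -/
def Rigid (y : ℕ) (A B : ℤ) : Prop :=
  disc A B ≠ 0 ∧ ∃ q : ℕ, y < q ∧ ∀ A' B' : ℤ, disc A' B' ≠ 0 → ∀ n : ℕ, 2 ≤ n → Congruent n A B A' B' → BadPrime A' B' q

/-- The digit number `i` (counted from the right, beginning with `0`) of `n` in base `b`. -/
def digit (b i n : ℕ) : ℕ := n / b ^ i % b

/-- The number which arises from the number `N` with at most `K` digits in base `b`, if for every `i ∈ S`
the digit number `i` is replaced by `f i`. -/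
def change (b K N : ℕ) (f : ℕ → ℕ) (S : Finset ℕ) : ℕ :=
  ∑ i ∈ range K, (if i ∈ S then f i else digit b i N) * b ^ i

/-- The number of the choices of `r` of the `K` positions for which the number obtained by changing the digits of `N` at
the chosen positions (according to `f`) does not have the property `E`. -/
noncomputable def exceptions (b K r N : ℕ) (f : ℕ → ℕ) (E : ℕ → Prop) : ℕ :=
  ((powersetCard r (range K)).filter (fun S => ¬ E (change b K N f S))).card

/-- **One-parameter families at integers with few changed digits.**  Let `A, B, P` be integer polynomials, `P` irreducible of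
positive degree, dividing `4A³ + 27B²` exactly once.  For all bases `b ≥ 2` and all `ε > 0` there are `c > 0` and `y₀`
such that for all `y ≥ y₀`, all `K ≥ 2r` with `r ≥ (log y) / c`, all `N` with at most `K` digits in base `b` and all new
digits `f`: for all but a proportion `ε` of the choices of `r` of the `K` positions, the number `t` obtained by changing the
digits of `N` at the chosen positions is such that `E_t : y² = x³ + A(t)x + B(t)` is an elliptic curve and all elliptic curves
congruent to `E_t` modulo some `n ≥ 2` have bad reduction at one and the same prime `q > y`. -/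
theorem result (A B P : ℤ[X]) (hP : Irreducible P) (hd : 0 < P.natDegree) (hPD : P ∣ 4 * A ^ 3 + 27 * B ^ 2)
    (hP2 : ¬ P ^ 2 ∣ 4 * A ^ 3 + 27 * B ^ 2) (b : ℕ) (hb : 2 ≤ b) (ε : ℝ) (hε : 0 < ε) :
    ∃ c : ℝ, 0 < c ∧ ∃ y₀ : ℕ, ∀ y : ℕ, y₀ ≤ y → ∀ r K : ℕ, 2 * r ≤ K → Real.log y ≤ c * r →
      ∀ N : ℕ, N < b ^ K → ∀ f : ℕ → ℕ, (∀ j, f j < b ∧ f j ≠ digit b j N) →
        (exceptions b K r N f (fun t => Rigid y (A.eval (t : ℤ)) (B.eval (t : ℤ))) : ℝ) ≤ ε * (K.choose r : ℝ) := by
  obtain ⟨c, hc, y₀, h⟩ := Pool.Agent.TH894.NI.rigid_family b hb A B P hP hd hPD hP2 ε hε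
  refine ⟨c, hc, y₀, fun y hy r K hrK hr N hN f hf => ?_⟩
  refine le_trans ?_ (h y hy r K hrK hr N hN f hf)
  unfold exceptions
  apply Nat.cast_le.2
  apply card_le_card
  intro S hS
  rw [mem_filter] at hS ⊢
  refine ⟨hS.1, fun hR => hS.2 ?_⟩
  obtain ⟨h0, q, _, hyq, hall⟩ := hR
  exact ⟨h0, q, hyq, fun A' B' h0' n hn hcong => hall A' B' h0' n hn hcong⟩

end Pool.Agent.Results.MP_a60a76_nt.FewDigitParameters
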