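import Pool.Agent.TH125.Tor.Theta

/-!
# The Frey-Mazur conjecture for almost all pairs of `j`-invariants, with a power saving

There are about `T ^ 4` pairs `(j₁, j₂)` of rational numbers of height at most `T`. For all but
`O(T ^ (2 + 1 / 1710 + ε))` of them, any two elliptic curves over `ℚ` with these `j`-invariants which
are `p`-congruent for some prime `p > 17` are isogenous.

Inputs (theorems, used as hypotheses):

* `LogarithmicBound` (Masser-Wüstholz, Refinements of the Tate conjecture for abelian varieties): for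
  a prime `p` larger than a power of the logarithm of the height, an isomorphism `E₁[p] ≅ E₂[p]` comes
  from a homomorphism;
* `UniformPairCount`, `PairCount`: for each `j₁`, a congruence modulo `p` gives a rational point on
  one of two twists of `X(p)`, irreducible of degree `p (p ^ 2 - 1) / 2` over the `j₂`-line (this is
  `3420` for `p = 19`), and an irreducible curve of degree `δ` has at most `c δ ^ 4 H ^ (2 / δ)`
  rational points of height at most `H` (Bombieri-Pila, Heath-Brown, Walsh,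
  Castryck-Cluckers-Dittmann-Nguyen); the bound is uniform in `j₁`.
-/

set_option autoImplicit false

namespace Pool.Agent.Results.MP_a60a76_nt.PairsPowerSaving

open Height

open scoped Classical in
/-- `E₁` and `E₂` are `p`-congruent: `E₁[p]` and `E₂[p]` are isomorphic as modules over the absolute
Galois group of `ℚ`. -/
def Congruent (E₁ E₂ : WeierstrassCurve ℚ) (p : ℕ) : Prop :=
  ∃ f : (E₁.baseChange (AlgebraicClosure ℚ)).toAffine.Point →
      (E₂.baseChange (AlgebraicClosure ℚ)).toAffine.Point,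
    (∀ P Q, p • P = 0 → p • Q = 0 → f (P + Q) = f P + f Q) ∧
    Set.BijOn f {P | p • P = 0} {Q | p • Q = 0} ∧
    ∀ (σ : AlgebraicClosure ℚ ≃ₐ[ℚ] AlgebraicClosure ℚ) P, p • P = 0 →
      f ((WeierstrassCurve.Affine.Point.map
          (σ : AlgebraicClosure ℚ →ₐ[ℚ] AlgebraicClosure ℚ) :
            (E₁.baseChange (AlgebraicClosure ℚ)).toAffine.Point →+
              (E₁.baseChange (AlgebraicClosure ℚ)).toAffine.Point) P) =
        (WeierstrassCurve.Affine.Point.map
          (σ : AlgebraicClosure ℚ →ₐ[ℚ] AlgebraicClosure ℚ) :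
            (E₂.baseChange (AlgebraicClosure ℚ)).toAffine.Point →+
              (E₂.baseChange (AlgebraicClosure ℚ)).toAffine.Point) (f P)

/-- `E₁` and `E₂` are isogenous over `ℚ`: the function field of `E₂` embeds into that of `E₁`. -/
def IsIsogenous (E₁ E₂ : WeierstrassCurve ℚ) : Prop :=
  Nonempty (FractionRing E₂.toAffine.CoordinateRing →ₐ[ℚ] FractionRing E₁.toAffine.CoordinateRing)

/-- There are `p`-congruent elliptic curves over `ℚ` with `j`-invariants `x.1` and `x.2` which are
not isogenous. -/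
def ExceptionalPair (x : ℚ × ℚ) (p : ℕ) : Prop :=
  ∃ (E₁ E₂ : WeierstrassCurve ℚ) (_ : E₁.IsElliptic) (_ : E₂.IsElliptic),
    E₁.j = x.1 ∧ E₂.j = x.2 ∧ Congruent E₁ E₂ p ∧ ¬ IsIsogenous E₁ E₂

/-- The height of a pair of rational numbers: the maximum of the heights. -/
noncomputable def pairHeight (x : ℚ × ℚ) : ℝ := max (mulHeight₁ x.1) (mulHeight₁ x.2)

/-- **Theorem of Masser and Wüstholz**: if a pair is exceptional for the prime `p`, then `p` is at
most a power of the logarithm of its height. -/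
def LogarithmicBound : Prop :=
  ∃ c : ℕ, ∀ (x : ℚ × ℚ) (p : ℕ), p.Prime → ExceptionalPair x p →
    (p : ℝ) ≤ c * (1 + Real.log (pairHeight x)) ^ c

/-- **Uniform point counts**: for a prime `p ≥ p₀(ε)`, at most
`C p ^ C T ^ (2 + 1 / 1710 + ε)` pairs of height at most `T` are exceptional for `p`. -/
def UniformPairCount : Prop :=
  ∀ ε : ℝ, 0 < ε → ∃ p₀ C : ℕ, ∀ p : ℕ, p.Prime → p₀ ≤ p → ∀ T : ℝ, 1 ≤ T →
    ({x : ℚ × ℚ | pairHeight x ≤ T ∧ ExceptionalPair x p}.ncard : ℝ) ≤
      C * (p : ℝ) ^ C * T ^ ((2 + 1 / 1710 : ℝ) + ε)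

/-- **Point counts for a single prime** `p ≥ 19`: at most `C T ^ (2 + 1 / 1710 + ε)` pairs of height
at most `T` are exceptional for `p`. -/
def PairCount : Prop :=
  ∀ p : ℕ, p.Prime → 19 ≤ p → ∀ ε : ℝ, 0 < ε → ∃ C : ℝ, ∀ T : ℝ, 1 ≤ T →
    ({x : ℚ × ℚ | pairHeight x ≤ T ∧ ExceptionalPair x p}.ncard : ℝ) ≤
      C * T ^ ((2 + 1 / 1710 : ℝ) + ε)

/-- **The Frey-Mazur conjecture for all but `O(T ^ (2 + 1 / 1710 + ε))` of the about `T ^ 4` pairs of
`j`-invariants of height at most `T`.** -/
theorem result (h₁ : LogarithmicBound) (h₂ : UniformPairCount) (h₃ : PairCount) :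
    ∀ ε : ℝ, 0 < ε → ∃ C : ℝ, ∀ T : ℝ, 1 ≤ T →
      ({x : ℚ × ℚ | pairHeight x ≤ T ∧ ∃ p : ℕ, p.Prime ∧ 19 ≤ p ∧ ExceptionalPair x p}.ncard : ℝ) ≤
        C * T ^ ((2 + 1 / 1710 : ℝ) + ε) := by
  refine Pool.Agent.TH125.Tor.union_theta pairHeight
    (fun x => (one_le_mulHeight₁ x.1).trans (le_max_left _ _)) (fun T => ?_) ExceptionalPair 19
    (by norm_num) h₁ h₂ h₃
  refine ((NumberField.finite_setOfPred_mulHeight₁_le ℚ T).prod
    (NumberField.finite_setOfPred_mulHeight₁_le ℚ T)).subset fun x hx => ?_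
  have hx' : max (mulHeight₁ x.1) (mulHeight₁ x.2) ≤ T := hx
  exact Set.mk_mem_prod ((le_max_left _ _).trans hx') ((le_max_right _ _).trans hx')

end Pool.Agent.Results.MP_a60a76_nt.PairsPowerSaving
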