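import Pool.Agent.TH4.FZ.Thin

/-!
# MP_a60a76_nt: a lower bound for the conductors of all curves congruent to a member of a
one-parameter family

Let `E_t : y² = x³ + A(t)x + B(t)`, `A`, `B` polynomials over `ℤ`, be a one-parameter family of
elliptic curves over `ℚ` and `4A³ + 27B² = f₁ ⋯ f_r H` in `ℤ[t]`, where the `fᵢ` are of degree at most
two, their product is squarefree and coprime to `H` (the elliptic surface has fibres of type `I₁` at
the zeros of the `fᵢ`).  For every `ε > 0` there is a constant `C` such that all but a proportion `ε`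
of the integers `t` have the following property: if `E'` is any elliptic curve over `ℚ` with `E'[n]`
isomorphic to `E_t[n]` as Galois module for some `n ≥ 2`, then the product of the primes `q ≥ 5` of
bad reduction of `E'`, a divisor of its conductor, is at least `|f₁(t) ⋯ f_r(t)|/C`.

Examples: `y² = x³ + ax + t` with `a ≠ 0` (`f₁ = 27t² + 4a³`), more generally `y² = x³ + ax + bt + c`;
`y² = x³ - 3(t² + 2)x + 2(t³ + 3t)` (`f₁ = -108(3t² + 8)`); `y² = x³ + tx + t` (`f₁ = 4t + 27`, `H = t²`).
In the first two cases the conductor of `E_t` itself is at most a constant times `|f₁(t)|`: for almost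
all `t` a congruence lowers the conductor by a bounded factor at most.

Proof.  For almost all `t` a large prime `q` which divides some `fᵢ(t)` divides `4A(t)³ + 27B(t)²`
exactly once (a sieve for square divisors, with the prime number bound `π(x) = o(x)`), and the part of
`fᵢ(t)` composed of small primes is bounded.  By the two ramification theorems of the libraries `W275/FM`
(for `q ∤ n`) and `W275/FML` (for `q ∣ n`) such a `q` divides the discriminant of every integral model
of `E'`.
-/

set_option autoImplicit false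

open Filter Polynomial
open scoped Classical

namespace Pool.Agent.Results.MP_a60a76_nt.ThinFamilies

/-- The curve `y² = x³ + Ax + B` over `ℚ`. -/
def curve (A B : ℤ) : WeierstrassCurve ℚ := ⟨0, 0, 0, A, B⟩

/-- The group of its points over the algebraic closure of `ℚ`. -/
abbrev Points (A B : ℤ) : Type := ((curve A B).baseChange (AlgebraicClosure ℚ)).toAffine.Point

/-- The action of an automorphism `σ` of the algebraic closure on the points. -/
noncomputable def galois (A B : ℤ) (σ : AlgebraicClosure ℚ ≃ₐ[ℚ] AlgebraicClosure ℚ) :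
    Points A B →+ Points A B :=
  WeierstrassCurve.Affine.Point.map
    (σ : AlgebraicClosure ℚ →ₐ[ℚ] AlgebraicClosure ℚ)

/-- The `n`-torsion of `y² = x³ + Ax + B` and that of `y² = x³ + A'x + B'` are isomorphic as Galois
modules: some map between the groups of points restricts to a bijective additive map of the
`n`-torsion which commutes with the Galois group. -/
def Congruent (n : ℕ) (A B A' B' : ℤ) : Prop :=
  ∃ f : Points A B → Points A' B', (∀ P Q, n • P = 0 → n • Q = 0 → f (P + Q) = f P + f Q) ∧
    Set.BijOn f {P | n • P = 0} {Q | n • Q = 0} ∧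
    ∀ (σ : AlgebraicClosure ℚ ≃ₐ[ℚ] AlgebraicClosure ℚ) (P : Points A B), n • P = 0 →
      f (galois A B σ P) = galois A' B' σ (f P)

/-- The discriminant, up to the factor `-16`. -/
def disc (A B : ℤ) : ℤ := 4 * A ^ 3 + 27 * B ^ 2

/-- The curves `y² = x³ + Ax + B` and `y² = x³ + A'x + B'` are isomorphic over `ℚ`. -/
def IsModel (A B A' B' : ℤ) : Prop :=
  ∃ u : ℚ, u ≠ 0 ∧ (A' : ℚ) = u ^ 4 * A ∧ (B' : ℚ) = u ^ 6 * B

/-- `q ≥ 5` is a prime of bad reduction of `y² = x³ + Ax + B`: it divides the discriminant of every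
integral equation `y² = x³ + A'x + B'` of the curve. -/
def BadPrime (A B : ℤ) (q : ℕ) : Prop :=
  q.Prime ∧ 5 ≤ q ∧ ∀ A' B' : ℤ, IsModel A B A' B' → (q : ℤ) ∣ disc A' B'

/-- The product of the primes `q ≥ 5` of bad reduction (they divide `4A³ + 27B²`, and the product
divides the conductor). -/
noncomputable def badProduct (A B : ℤ) : ℕ :=
  ∏ q ∈ (disc A B).natAbs.primeFactors.filter (fun q => BadPrime A B q), q

/-- `E : y² = x³ + Ax + B` is an elliptic curve, and whenever `E'` is an elliptic curve with `E'[n]`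
isomorphic to `E[n]` for some `n ≥ 2`, the product of the primes `q ≥ 5` of bad reduction of `E'` is at
least `|g|/C`. -/
def KeepsConductor (C : ℕ) (g A B : ℤ) : Prop :=
  disc A B ≠ 0 ∧ ∀ A' B' : ℤ, disc A' B' ≠ 0 → ∀ n : ℕ, 2 ≤ n → Congruent n A B A' B' →
    g.natAbs ≤ C * badProduct A' B'

/-- **Conductors of the curves congruent to almost all members of a one-parameter family.**  Let
`4A³ + 27B² = f₁ ⋯ f_r H` be nonzero, where the polynomials `fᵢ` have degree at most two and their
product is squarefree and coprime to `H` over `ℚ`.  For every `ε > 0` there is a `C` such that for all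
large `T` a proportion at least `1 - ε` of the integers `|t| ≤ T` satisfies
`KeepsConductor C (f₁(t) ⋯ f_r(t)) A(t) B(t)`. -/
theorem result (A B H : ℤ[X]) (r : ℕ) (f : Fin r → ℤ[X]) (hdeg : ∀ i, (f i).natDegree ≤ 2)
    (hD : 4 * A ^ 3 + 27 * B ^ 2 = (∏ i, f i) * H) (h₀ : 4 * A ^ 3 + 27 * B ^ 2 ≠ 0)
    (hsq : Squarefree ((∏ i, f i).map (Int.castRingHom ℚ)))
    (hcop : IsCoprime ((∏ i, f i).map (Int.castRingHom ℚ)) (H.map (Int.castRingHom ℚ)))
    (ε : ℝ) (hε : 0 < ε) : ∃ C : ℕ, ∀ᶠ T : ℕ in atTop,
    (1 - ε) * (({t | |t| ≤ (T : ℤ)} : Set ℤ).ncard : ℝ) ≤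
      (({t | |t| ≤ (T : ℤ) ∧ KeepsConductor C ((∏ i, f i).eval t) (A.eval t) (B.eval t)} :
        Set ℤ).ncard : ℝ) := by
  obtain ⟨C, hC⟩ := Pool.Agent.TH4.FZ.thin A B H f hdeg hD h₀ hsq hcop ε hε
  obtain ⟨T₀, hT₀⟩ := hC.compl hε.le
  refine ⟨C, eventually_atTop.2 ⟨T₀, fun T hT => (hT₀ T hT).trans_eq ?_⟩⟩
  congr 2
  ext t
  refine and_congr_right fun _ => ?_
  exact not_not

end Pool.Agent.Results.MP_a60a76_nt.ThinFamilies
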